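import Pool.Agent.Helper15.FC.St5

set_option autoImplicit false

/-!
Project FC, module GKM: the functions `Gk j` are multiplicative, nonnegative and bounded by
`tau ^ j`.
-/

namespace Pool.Agent.Helper34.FC

open Pool.Agent.Helper15.FC Polynomial

private theorem Dv_one {F : Type} [Field F] [Fintype F] : Dv (1 : F[X]) = {1} := by
  ext e
  rw [mem_Dv one_ne_zero, Finset.mem_singleton]
  constructor
  · rintro ⟨h1, h2⟩
    exact h1.eq_one_of_isUnit (isUnit_of_dvd_one h2)
  · rintro rfl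
    exact ⟨monic_one, dvd_rfl⟩

private theorem phi_one' {F : Type} [Field F] [Fintype F] : phi (1 : F[X]) = 1 := by
  classical
  unfold phi
  rw [Polynomial.natDegree_one]
  have h1 : (Lw F 0).filter (fun x => IsCoprime x (1 : F[X])) = Lw F 0 := by
    refine Finset.filter_true_of_mem fun x _ => isCoprime_one_right
  rw [h1, card_Lw, pow_zero]

private theorem qr_pos' (F : Type) [Field F] [Fintype F] : (0 : ℝ) < qr F := by
  unfold qr
  exact_mod_cast Fintype.card_pos

private theorem phi_le {F : Type} [Field F] [Fintype F] (e : F[X]) :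
    (phi e : ℝ) / qr F ^ e.natDegree ≤ 1 := by
  classical
  rw [div_le_one (pow_pos (qr_pos' F) _)]
  have h1 : phi e ≤ Fintype.card F ^ e.natDegree := by
    unfold phi
    rw [← card_Lw F e.natDegree]
    exact Finset.card_filter_le _ _
  have h2 : (phi e : ℝ) ≤ ((Fintype.card F ^ e.natDegree : ℕ) : ℝ) := by exact_mod_cast h1
  rw [Nat.cast_pow] at h2
  exact h2

private theorem tau_le {F : Type} [Field F] [Fintype F] {e r : F[X]} (hr : r.Monic)
    (he : e ∈ Dv r) : tau e ≤ tau r := by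
  obtain ⟨h1, h2⟩ := (mem_Dv hr.ne_zero).1 he
  unfold tau
  have h3 : Dv e ⊆ Dv r := by
    intro d hd
    obtain ⟨h4, h5⟩ := (mem_Dv h1.ne_zero).1 hd
    exact (mem_Dv hr.ne_zero).2 ⟨h4, h5.trans h2⟩
  exact_mod_cast Finset.card_le_card h3

private theorem tau_nonneg {F : Type} [Field F] [Fintype F] (e : F[X]) : 0 ≤ tau e := by
  unfold tau
  exact Nat.cast_nonneg _

private theorem Gk_succ {F : Type} [Field F] [Fintype F] (j : ℕ) (r : F[X]) :
    Gk (j + 1) r = ∑ e ∈ Dv r, (phi e : ℝ) / qr F ^ e.natDegree * Gk j e := rfl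

private theorem Gk_zero {F : Type} [Field F] [Fintype F] (r : F[X]) :
    (r = 1 → Gk 0 r = 1) ∧ (r ≠ 1 → Gk 0 r = 0) := by
  constructor
  · intro h
    unfold Gk
    exact if_pos h
  · intro h
    unfold Gk
    exact if_neg h

private theorem Gk_mul_step {F : Type} [Field F] [Fintype F] (hDVM : StDVM) (hPHM : StPHM)
    (j : ℕ) (ih : ∀ r s : F[X], r.Monic → s.Monic → IsCoprime r s →
      Gk j (r * s) = Gk j r * Gk j s) (r s : F[X]) (hr : r.Monic) (hs : s.Monic)
    (hrs : IsCoprime r s) : Gk (j + 1) (r * s) = Gk (j + 1) r * Gk (j + 1) s := by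
  rw [Gk_succ, Gk_succ, Gk_succ, (hDVM F).1 r s _ hr hs hrs, Finset.sum_mul_sum]
  refine Finset.sum_congr rfl fun a ha => Finset.sum_congr rfl fun b hb => ?_
  obtain ⟨ha1, ha2⟩ := (mem_Dv hr.ne_zero).1 ha
  obtain ⟨hb1, hb2⟩ := (mem_Dv hs.ne_zero).1 hb
  have hab : IsCoprime a b := IsCoprime.of_isCoprime_of_dvd_left
    (IsCoprime.of_isCoprime_of_dvd_right hrs hb2) ha2
  have h0 : (qr F : ℝ) ≠ 0 := (qr_pos' F).ne'
  rw [ih a b ha1 hb1 hab, (hPHM F).1 a b ha1 hb1 hab, ha1.natDegree_mul hb1, pow_add,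
    Nat.cast_mul]
  field_simp

theorem hGKM (hDVM : StDVM) (hPHM : StPHM) : StGKM := by
  intro F _ _ j
  induction j with
  | zero =>
    refine ⟨(Gk_zero _).1 rfl, ?_, ?_⟩
    · intro r s hr hs _
      by_cases h1 : r = 1
      · rw [h1, one_mul, (Gk_zero (1 : F[X])).1 rfl, one_mul]
      · have h2 : r * s ≠ 1 := by
          intro h3
          exact h1 (hr.eq_one_of_isUnit (IsUnit.of_mul_eq_one s h3))
        rw [(Gk_zero _).2 h1, (Gk_zero _).2 h2, zero_mul]
    · intro r _
      rw [pow_zero]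
      by_cases h1 : r = 1
      · rw [(Gk_zero _).1 h1]
        exact ⟨zero_le_one, le_refl _⟩
      · rw [(Gk_zero _).2 h1]
        exact ⟨le_refl _, zero_le_one⟩
  | succ j ih =>
    obtain ⟨ih1, ih2, ih3⟩ := ih
    refine ⟨?_, fun r s hr hs hrs => Gk_mul_step hDVM hPHM j ih2 r s hr hs hrs, ?_⟩
    · rw [Gk_succ, Dv_one, Finset.sum_singleton, ih1, phi_one', Polynomial.natDegree_one]
      simp
    · intro r hr
      rw [Gk_succ]
      have hterm : ∀ e ∈ Dv r, 0 ≤ (phi e : ℝ) / qr F ^ e.natDegree * Gk j e ∧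
          (phi e : ℝ) / qr F ^ e.natDegree * Gk j e ≤ tau r ^ j := by
        intro e he
        obtain ⟨he1, he2⟩ := (mem_Dv hr.ne_zero).1 he
        obtain ⟨h1, h2⟩ := ih3 e he1
        have h3 : 0 ≤ (phi e : ℝ) / qr F ^ e.natDegree :=
          div_nonneg (Nat.cast_nonneg _) (pow_pos (qr_pos' F) _).le
        refine ⟨mul_nonneg h3 h1, ?_⟩
        have h4 : (phi e : ℝ) / qr F ^ e.natDegree * Gk j e ≤ Gk j e :=
          mul_le_of_le_one_left h1 (phi_le e)
        exact h4.trans (h2.trans (pow_le_pow_left₀ (tau_nonneg e) (tau_le hr he) j))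
      refine ⟨Finset.sum_nonneg fun e he => (hterm e he).1, ?_⟩
      refine (Finset.sum_le_sum fun e he => (hterm e he).2).trans (le_of_eq ?_)
      rw [Finset.sum_const, nsmul_eq_mul, pow_succ, mul_comm]
      rfl

end Pool.Agent.Helper34.FC
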