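import Pool.Agent.Helper15.FC.St3

set_option autoImplicit false

/-!
Project FC, module RM2: the sum over the primitive additive characters modulo `r` is the Ramanujan
sum `cram r h`.
-/

namespace Pool.Agent.Helper34.FC

open Pool.Agent.Helper15.FC Polynomial

/-- the ideal of all `g` such that `ν` is trivial on the multiples of `g` -/
private def Jd {F : Type} [Field F] (ν : AddChar F[X] ℂ) : Ideal F[X] where
  carrier := {g | ∀ x : F[X], ν (g * x) = 1}
  add_mem' := by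
    intro a b ha hb x
    rw [add_mul, AddChar.map_add_eq_mul, ha x, hb x, one_mul]
  zero_mem' := by
    intro x
    rw [zero_mul, AddChar.map_zero_eq_one]
  smul_mem' := by
    intro c g hg x
    rw [smul_eq_mul, mul_comm c g, mul_assoc]
    exact hg _

private theorem gen_ex {F : Type} [Field F] {r : F[X]} (hr : r.Monic) {ν : AddChar F[X] ℂ}
    (h : ν ∈ AC r) : ∃ d : F[X], d.Monic ∧ ∀ g : F[X], ν ∈ AC g ↔ d ∣ g := by
  obtain ⟨g0, hg0⟩ := (IsPrincipalIdealRing.principal (Jd ν)).principal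
  have hiff : ∀ g : F[X], ν ∈ AC g ↔ g0 ∣ g := by
    intro g
    have h1 : ν ∈ AC g ↔ g ∈ Jd ν := Iff.rfl
    rw [h1, hg0]
    exact Ideal.mem_span_singleton
  have h0 : g0 ≠ 0 := by
    intro h1
    have h2 := (hiff r).1 h
    rw [h1, zero_dvd_iff] at h2
    exact hr.ne_zero h2
  refine ⟨g0 * C (g0.leadingCoeff)⁻¹, monic_mul_leadingCoeff_inv h0, fun g => ?_⟩
  rw [hiff g]
  have hu : IsUnit (C (g0.leadingCoeff)⁻¹ : F[X]) :=
    isUnit_C.2 (IsUnit.mk0 _ (inv_ne_zero (leadingCoeff_ne_zero.2 h0)))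
  exact (hu.mul_right_dvd).symm

private theorem monic_eq {F : Type} [Field F] {a b : F[X]} (ha : a.Monic) (hb : b.Monic)
    (h1 : a ∣ b) (h2 : b ∣ a) : a = b :=
  eq_of_monic_of_associated ha hb (associated_of_dvd_dvd h1 h2)

private theorem mem_Pr_iff {F : Type} [Field F] [Fintype F] (hACF : StACF) {r : F[X]}
    (ν : AddChar F[X] ℂ) (hr : r.Monic) :
    ν ∈ Pr r ↔ ∀ g : F[X], ν ∈ AC g ↔ r ∣ g := by
  classical
  have hA := (hACF F).2
  unfold Pr
  rw [Finset.mem_filter, (hA r hr).2.1 ν]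
  constructor
  · rintro ⟨h1, h2⟩
    obtain ⟨d, hd, hdg⟩ := gen_ex hr h1
    have h3 : d = r := h2 d hd ((hdg r).1 h1) ((hdg d).2 dvd_rfl)
    rw [h3] at hdg
    exact hdg
  · intro h
    refine ⟨(h r).2 dvd_rfl, fun r' hr' hd hν => ?_⟩
    exact monic_eq hr' hr hd ((h r').1 hν)

private theorem sum_ACf {F : Type} [Field F] [Fintype F] (hACF : StACF) {r : F[X]}
    (hr : r.Monic) (φ : AddChar F[X] ℂ → ℂ) :
    ∑ ν ∈ ACf r, φ ν = ∑ d ∈ Dv r, ∑ ν ∈ Pr d, φ ν := by
  classical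
  have hA := (hACF F).2
  have hunion : ACf r = (Dv r).biUnion (fun d => Pr d) := by
    ext ν
    rw [(hA r hr).2.1 ν, Finset.mem_biUnion]
    constructor
    · intro h
      obtain ⟨d, hd, hdg⟩ := gen_ex hr h
      exact ⟨d, (mem_Dv hr.ne_zero).2 ⟨hd, (hdg r).1 h⟩, (mem_Pr_iff hACF ν hd).2 hdg⟩
    · rintro ⟨d, hd, hν⟩
      obtain ⟨hd1, hd2⟩ := (mem_Dv hr.ne_zero).1 hd
      exact ((mem_Pr_iff hACF ν hd1).1 hν r).2 hd2
  rw [hunion, Finset.sum_biUnion]
  intro d hd d' hd' hne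
  obtain ⟨hd1, hd2⟩ := (mem_Dv hr.ne_zero).1 (Finset.mem_coe.1 hd)
  obtain ⟨hd1', hd2'⟩ := (mem_Dv hr.ne_zero).1 (Finset.mem_coe.1 hd')
  rw [Function.onFun, Finset.disjoint_left]
  intro ν h1 h2
  have h3 := (mem_Pr_iff hACF ν hd1).1 h1
  have h4 := (mem_Pr_iff hACF ν hd1').1 h2
  apply hne
  refine monic_eq hd1 hd1' ?_ ?_
  · exact (h3 d').1 ((h4 d').2 dvd_rfl)
  · exact (h4 d).1 ((h3 d).2 dvd_rfl)

open scoped Classical in
private theorem inner_sum {F : Type} [Field F] [Fintype F] (hMOB : StMOB) {r e : F[X]}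
    (hr : r.Monic) (he : e.Monic) (her : e ∣ r) :
    (∑ d ∈ (Dv r).filter (fun d => e ∣ d), mob (d / e)) = if e = r then 1 else 0 := by
  classical
  obtain ⟨s, rfl⟩ := her
  have hs : s.Monic := he.of_mul_monic_left hr
  have h1 : ∑ d ∈ (Dv (e * s)).filter (fun d => e ∣ d), mob (d / e) = ∑ d ∈ Dv s, mob d := by
    symm
    refine Finset.sum_bij (fun d _ => e * d) ?_ ?_ ?_ ?_
    · intro d hd
      obtain ⟨hd1, hd2⟩ := (mem_Dv hs.ne_zero).1 hd
      exact Finset.mem_filter.2 ⟨(mem_Dv hr.ne_zero).2 ⟨he.mul hd1, mul_dvd_mul_left e hd2⟩,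
        dvd_mul_right e d⟩
    · intro a _ b _ hab
      exact mul_left_cancel₀ he.ne_zero hab
    · intro d hd
      obtain ⟨hd0, c, rfl⟩ := Finset.mem_filter.1 hd
      obtain ⟨hd1, hd2⟩ := (mem_Dv hr.ne_zero).1 hd0
      exact ⟨c, (mem_Dv hs.ne_zero).2 ⟨he.of_mul_monic_left hd1,
        (mul_dvd_mul_iff_left he.ne_zero).1 hd2⟩, rfl⟩
    · intro d _
      rw [mul_div_cancel_left₀ d he.ne_zero]
  rw [h1]
  by_cases hs1 : s = 1
  · rw [hs1, mul_one, if_pos rfl]
    exact (hMOB F).1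
  · rw [(hMOB F).2 s hs hs1, if_neg]
    intro h
    apply hs1
    have h2 : e * s = e * 1 := by rw [mul_one]; exact h.symm
    exact mul_left_cancel₀ he.ne_zero h2

open scoped Classical in
private theorem cram_as {F : Type} [Field F] [Fintype F] {r d : F[X]} (h : F[X])
    (hr : r.Monic) (hd : d ∈ Dv r) : cram d h =
      ∑ e ∈ Dv r, if e ∣ h then (if e ∣ d then
        mob (d / e) * (Fintype.card F : ℤ) ^ e.natDegree else 0) else 0 := by
  classical
  obtain ⟨hd1, hd2⟩ := (mem_Dv hr.ne_zero).1 hd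
  unfold cram
  have h1 : (Dv d).filter (fun e => e ∣ h) = (Dv r).filter (fun e => e ∣ h ∧ e ∣ d) := by
    ext e
    rw [Finset.mem_filter, Finset.mem_filter, mem_Dv hd1.ne_zero, mem_Dv hr.ne_zero]
    constructor
    · rintro ⟨⟨h1, h2⟩, h3⟩
      exact ⟨⟨h1, h2.trans hd2⟩, h3, h2⟩
    · rintro ⟨⟨h1, h2⟩, h3, h4⟩
      exact ⟨⟨h1, h4⟩, h3⟩
  rw [h1, Finset.sum_filter]
  refine Finset.sum_congr rfl fun e _ => ?_
  by_cases ha : e ∣ h
  · by_cases hb : e ∣ d
    · rw [if_pos ⟨ha, hb⟩, if_pos ha, if_pos hb]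
    · rw [if_neg (fun hh => hb hh.2), if_pos ha, if_neg hb]
  · rw [if_neg (fun hh => ha hh.1), if_neg ha]

open scoped Classical in
private theorem sum_cram {F : Type} [Field F] [Fintype F] (hMOB : StMOB) {r : F[X]} (h : F[X])
    (hr : r.Monic) :
    ∑ d ∈ Dv r, cram d h = if r ∣ h then (Fintype.card F : ℤ) ^ r.natDegree else 0 := by
  classical
  rw [Finset.sum_congr rfl (fun d hd => cram_as h hr hd), Finset.sum_comm]
  have h1 : ∀ e ∈ Dv r, (∑ d ∈ Dv r, if e ∣ h then (if e ∣ d then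
        mob (d / e) * (Fintype.card F : ℤ) ^ e.natDegree else 0) else 0) =
      if e = r then (if r ∣ h then (Fintype.card F : ℤ) ^ r.natDegree else 0) else 0 := by
    intro e he
    obtain ⟨he1, he2⟩ := (mem_Dv hr.ne_zero).1 he
    by_cases ha : e ∣ h
    · have h2 : (∑ d ∈ Dv r, if e ∣ h then (if e ∣ d then
          mob (d / e) * (Fintype.card F : ℤ) ^ e.natDegree else 0) else 0) =
          (∑ d ∈ (Dv r).filter (fun d => e ∣ d), mob (d / e)) *
            (Fintype.card F : ℤ) ^ e.natDegree := by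
        rw [Finset.sum_mul, Finset.sum_filter]
        refine Finset.sum_congr rfl fun d _ => ?_
        rw [if_pos ha]
      rw [h2, inner_sum hMOB hr he1 he2]
      by_cases her : e = r
      · rw [if_pos her, if_pos her, one_mul, her, if_pos (her ▸ ha)]
      · rw [if_neg her, if_neg her, zero_mul]
    · have h2 : (∑ d ∈ Dv r, if e ∣ h then (if e ∣ d then
          mob (d / e) * (Fintype.card F : ℤ) ^ e.natDegree else 0) else 0) = 0 := by
        refine Finset.sum_eq_zero fun d _ => ?_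
        rw [if_neg ha]
      rw [h2]
      by_cases her : e = r
      · rw [if_pos her, if_neg (her ▸ ha)]
      · rw [if_neg her]
  rw [Finset.sum_congr rfl h1, Finset.sum_ite_eq' (Dv r) r, if_pos]
  exact (mem_Dv hr.ne_zero).2 ⟨hr, dvd_rfl⟩

private theorem main_sum {F : Type} [Field F] [Fintype F] (hACF : StACF) (hMOB : StMOB)
    (h : F[X]) : ∀ (n : ℕ) (r : F[X]), r.Monic → r.natDegree = n →
      ∑ ν ∈ Pr r, ν h = (cram r h : ℂ) := by
  classical
  intro n
  induction n using Nat.strong_induction_on with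
  | _ n ih =>
    intro r hr hn
    have hA := (hACF F).2 r hr
    have h1 : ∑ ν ∈ ACf r, ν h =
        ((if r ∣ h then (Fintype.card F : ℤ) ^ r.natDegree else 0 : ℤ) : ℂ) := by
      by_cases hd : r ∣ h
      · rw [hA.2.2.2.1 h hd, if_pos hd]
        push_cast
        rfl
      · rw [hA.2.2.2.2 h hd, if_neg hd]
        push_cast
        rfl
    rw [← sum_cram hMOB h hr, sum_ACf hACF hr, Int.cast_sum] at h1
    have hmem : r ∈ Dv r := (mem_Dv hr.ne_zero).2 ⟨hr, dvd_rfl⟩
    rw [← Finset.add_sum_erase _ _ hmem, ← Finset.add_sum_erase _ (fun d => (cram d h : ℂ)) hmem]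
      at h1
    have h2 : ∑ d ∈ (Dv r).erase r, ∑ ν ∈ Pr d, ν h = ∑ d ∈ (Dv r).erase r, (cram d h : ℂ) := by
      refine Finset.sum_congr rfl fun d hd => ?_
      obtain ⟨hd0, hd1⟩ := Finset.mem_erase.1 hd
      obtain ⟨hd2, hd3⟩ := (mem_Dv hr.ne_zero).1 hd1
      have hlt : d.natDegree < n := by
        rw [← hn]
        refine lt_of_le_of_ne (natDegree_le_of_dvd hd3 hr.ne_zero) fun heq => hd0 ?_
        obtain ⟨c, hc⟩ := hd3
        have hcm : c.Monic := hd2.of_mul_monic_left (hc ▸ hr)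
        have h5 : r.natDegree = d.natDegree + c.natDegree := by
          rw [hc]
          exact hd2.natDegree_mul hcm
        have h6 : c.natDegree = 0 := by omega
        have h7 : c = 1 := hcm.natDegree_eq_zero.1 h6
        rw [hc, h7, mul_one]
      exact ih d.natDegree hlt d hd2 rfl
    rw [h2] at h1
    exact add_right_cancel h1

theorem hRM2 (hACF : StACF) (hMOB : StMOB) : StRM2 := by
  intro F _ _ r h hr
  classical
  refine ⟨main_sum hACF hMOB h r.natDegree r hr rfl, ?_⟩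
  rw [← ((hACF F).2 r hr).2.2.1]
  unfold Pr
  exact Finset.card_filter_le _ _

end Pool.Agent.Helper34.FC
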