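import Pool.Agent.Helper15.FC.St2

/-! Project FC, module SPL: splitting off the `r`-part. -/

set_option autoImplicit false

namespace Pool.Agent.Helper34.FC

open Pool.Agent.Helper15.FC Polynomial

private theorem spl_ex {F : Type} [Field F] (r : F[X]) (n : ℕ) :
    ∀ f : F[X], f.Monic → f.natDegree = n → ∃ f0 f1 : F[X], f0.Monic ∧ f1.Monic ∧ f = f0 * f1 ∧
      (∃ j : ℕ, f0 ∣ r ^ j) ∧ IsCoprime f1 r := by
  classical
  induction n using Nat.strong_induction_on with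
  | _ n ih =>
    intro f hf hn
    by_cases hc : IsCoprime f r
    · exact ⟨1, f, monic_one, hf, (one_mul f).symm, ⟨0, one_dvd _⟩, hc⟩
    · have hc' : ¬ IsRelPrime f r := by
        rwa [isRelPrime_iff_isCoprime]
      unfold IsRelPrime at hc'
      push Not at hc'
      obtain ⟨d, hd1, hd2, hd3⟩ := hc'
      have hd0 : d ≠ 0 := by
        rintro rfl
        exact hf.ne_zero (zero_dvd_iff.1 hd1)
      have hm : (d * C (d.leadingCoeff)⁻¹).Monic := monic_mul_leadingCoeff_inv hd0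
      have hu : IsUnit (C (d.leadingCoeff)⁻¹ : F[X]) :=
        isUnit_C.2 (IsUnit.mk0 _ (inv_ne_zero (leadingCoeff_ne_zero.2 hd0)))
      have hd1' : d * C (d.leadingCoeff)⁻¹ ∣ f := (IsUnit.mul_right_dvd hu).2 hd1
      have hd2' : d * C (d.leadingCoeff)⁻¹ ∣ r := (IsUnit.mul_right_dvd hu).2 hd2
      set e := d * C (d.leadingCoeff)⁻¹ with he
      obtain ⟨f', hf'⟩ := hd1'
      have hfm : f'.Monic := by
        rw [hf'] at hf
        exact hm.of_mul_monic_left hf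
      have hdeg : 0 < e.natDegree := by
        rw [Nat.pos_iff_ne_zero]
        intro h0
        have h1 : e = 1 := eq_one_of_monic_natDegree_zero hm h0
        apply hd3
        rw [he] at h1
        exact IsUnit.of_mul_eq_one _ h1
      have hlt : f'.natDegree < n := by
        rw [hf', hm.natDegree_mul hfm] at hn
        omega
      obtain ⟨f0, f1, h0, h1, h2, ⟨j, hj⟩, h4⟩ := ih _ hlt f' hfm rfl
      refine ⟨e * f0, f1, hm.mul h0, h1, ?_, ⟨j + 1, ?_⟩, h4⟩
      · rw [hf', h2]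
        exact (mul_assoc _ _ _).symm
      · rw [pow_succ, mul_comm (r ^ j)]
        exact mul_dvd_mul hd2' hj

private theorem spl_dvd {F : Type} [Field F] (r f0 f1 f0' f1' : F[X]) (h : f0 * f1 = f0' * f1')
    (hj : ∃ j : ℕ, f0 ∣ r ^ j) (hc : IsCoprime f1' r) : f0 ∣ f0' := by
  obtain ⟨j, hj⟩ := hj
  have h1 : IsCoprime f0 f1' := (IsCoprime.of_isCoprime_of_dvd_right hc.pow_right hj).symm
  exact h1.dvd_of_dvd_mul_right ⟨f1, h.symm⟩

/-- **SPL.** -/
theorem hSPL : StSPL := by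
  classical
  intro F _ _ r n g _
  have e1 : ∀ i, ∑ f0 ∈ Sm r i, ∑ f1 ∈ Cp r (n - i), g (f0 * f1) =
      ∑ x ∈ Sm r i ×ˢ Cp r (n - i), g (x.1 * x.2) := fun i => by rw [Finset.sum_product]
  simp only [e1]
  rw [Finset.sum_sigma']
  symm
  refine Finset.sum_nbij (fun x => x.2.1 * x.2.2) ?_ ?_ ?_ ?_
  · rintro ⟨i, f0, f1⟩ hx
    simp only [Finset.mem_sigma, Finset.mem_product, Finset.mem_range] at hx
    obtain ⟨hi, h0, h1⟩ := hx
    simp only [Sm, Cp, Finset.mem_filter] at h0 h1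
    obtain ⟨a1, a2⟩ := mem_Mn.1 h0.1
    obtain ⟨b1, b2⟩ := mem_Mn.1 h1.1
    refine mem_Mn.2 ⟨a1.mul b1, ?_⟩
    change (f0 * f1).natDegree = n
    rw [a1.natDegree_mul b1, a2, b2]
    omega
  · rintro ⟨i, f0, f1⟩ hx ⟨i', f0', f1'⟩ hx' h
    simp only [Finset.coe_sigma, Finset.coe_product, Set.mem_sigma_iff, Set.mem_prod,
      Finset.mem_coe, Finset.mem_range] at hx hx'
    obtain ⟨hi, h0, h1⟩ := hx
    obtain ⟨hi', h0', h1'⟩ := hx'
    simp only [Sm, Cp, Finset.mem_filter] at h0 h1 h0' h1'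
    simp only at h
    obtain ⟨a1, a2⟩ := mem_Mn.1 h0.1
    obtain ⟨a1', a2'⟩ := mem_Mn.1 h0'.1
    have d1 := spl_dvd r f0 f1 f0' f1' h h0.2 h1'.2
    have d2 := spl_dvd r f0' f1' f0 f1 h.symm h0'.2 h1.2
    have e0 : f0 = f0' := eq_of_monic_of_associated a1 a1' (associated_of_dvd_dvd d1 d2)
    subst e0
    have ei : i = i' := by rw [← a2, ← a2']
    subst ei
    have e2 : f1 = f1' := mul_left_cancel₀ a1.ne_zero h
    subst e2
    rfl
  · intro f hf
    obtain ⟨hf1, hf2⟩ := mem_Mn.1 (Finset.mem_coe.1 hf)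
    obtain ⟨f0, f1, h0, h1, h2, h3, h4⟩ := spl_ex r n f hf1 hf2
    have hd : f0.natDegree + f1.natDegree = n := by
      rw [← h0.natDegree_mul h1, ← h2, hf2]
    refine ⟨⟨f0.natDegree, f0, f1⟩, ?_, h2.symm⟩
    simp only [Finset.coe_sigma, Finset.coe_product, Set.mem_sigma_iff, Set.mem_prod,
      Finset.mem_coe, Finset.mem_range, Sm, Cp, Finset.mem_filter]
    refine ⟨by omega, ⟨mem_Mn.2 ⟨h0, rfl⟩, h3⟩, mem_Mn.2 ⟨h1, by omega⟩, h4⟩
  · intro x _
    rfl

end Pool.Agent.Helper34.FC
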